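import Mathlib

set_option autoImplicit false

/-!
# From `(d+1)`-dimensional point sets to finite `d`-dimensional sequences
-/

namespace H739SQ

open Finset

/-- The number of `k < N` with `z k j < y j` for all `j`, as a real number. -/
noncomputable def cn {d : ℕ} (z : ℕ → Fin d → ℝ) (N : ℕ) (y : Fin d → ℝ) : ℝ :=
  open Classical in ∑ k ∈ range N, if ∀ j, z k j < y j then (1 : ℝ) else 0

/-- The star bound for the first `N` terms. -/
def SB {d : ℕ} (z : ℕ → Fin d → ℝ) (N : ℕ) (E : ℝ) : Prop :=
  ∀ y : Fin d → ℝ, (∀ j, 0 ≤ y j) → (∀ j, y j ≤ 1) → |cn z N y - N * ∏ j, y j| ≤ E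

open Classical in
/-- **Sorting by the first coordinate.** -/
theorem sorted {d M : ℕ} {Δ : ℝ} (ξ : Fin M → Fin (d + 1) → ℝ)
    (hξ : ∀ i j, 0 ≤ ξ i j ∧ ξ i j < 1)
    (h : ∀ x : Fin (d + 1) → ℝ, (∀ j, 0 ≤ x j) → (∀ j, x j ≤ 1) →
      |(((univ : Finset (Fin M)).filter (fun i => ∀ j, ξ i j < x j)).card : ℝ)
        - M * ∏ j, x j| ≤ Δ) :
    ∃ z : ℕ → Fin d → ℝ, (∀ k j, 0 ≤ z k j ∧ z k j < 1) ∧ ∀ N ≤ M, SB z N (2 * Δ) := by
  set σ := Tuple.sort (fun i => ξ i 0) with hσ
  have hmono : Monotone ((fun i => ξ i 0) ∘ σ) := Tuple.monotone_sort _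
  set z : ℕ → Fin d → ℝ := fun k j => if h : k < M then ξ (σ ⟨k, h⟩) j.succ else 0 with hz
  have hz' : ∀ (k : ℕ) (hk : k < M) (j : Fin d), z k j = ξ (σ ⟨k, hk⟩) j.succ := fun k hk j => by
    rw [hz]; simp only [dif_pos hk]
  have hΔ : 0 ≤ Δ := (abs_nonneg _).trans (h (fun _ => 0) (fun _ => le_rfl) (fun _ => zero_le_one))
  -- the three dimensional count
  set F : ℝ → (Fin d → ℝ) → ℕ := fun t y =>
    ((univ : Finset (Fin M)).filter (fun i => ξ i 0 < t ∧ ∀ j : Fin d, ξ i j.succ < y j)).card
    with hF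
  have hFb : ∀ (t : ℝ) (y : Fin d → ℝ), 0 ≤ t → t ≤ 1 → (∀ j, 0 ≤ y j) → (∀ j, y j ≤ 1) →
      |(F t y : ℝ) - M * (t * ∏ j, y j)| ≤ Δ := by
    intro t y ht0 ht1 hy0 hy1
    have h1 := h (Fin.cons t y) (by
      intro j
      refine Fin.cases ?_ ?_ j
      · simpa using ht0
      · intro i; simpa using hy0 i) (by
      intro j
      refine Fin.cases ?_ ?_ j
      · simpa using ht1
      · intro i; simpa using hy1 i)
    rw [Fin.prod_univ_succ] at h1
    simp only [Fin.cons_zero, Fin.cons_succ] at h1
    have h2 : (univ : Finset (Fin M)).filter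
        (fun i => ∀ j, ξ i j < (Fin.cons t y : Fin (d + 1) → ℝ) j) =
        (univ : Finset (Fin M)).filter (fun i => ξ i 0 < t ∧ ∀ j : Fin d, ξ i j.succ < y j) := by
      apply filter_congr
      intro i _
      rw [Fin.forall_fin_succ]
      simp only [Fin.cons_zero, Fin.cons_succ]
    rw [h2] at h1
    exact h1
  have hcn : ∀ (N : ℕ) (y : Fin d → ℝ),
      cn z N y = (((range N).filter (fun k => ∀ j, z k j < y j)).card : ℝ) := by
    intro N y
    unfold cn
    rw [card_filter]
    push_cast
    exact sum_congr rfl fun k _ => by congr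
  -- lower and upper comparison
  have hlow : ∀ (N : ℕ) (hN : N < M) (y : Fin d → ℝ),
      F (ξ (σ ⟨N, hN⟩) 0) y ≤ ((range N).filter (fun k => ∀ j, z k j < y j)).card := by
    intro N hN y
    rw [hF]
    refine card_le_card_of_injOn (fun i => ((σ.symm i : Fin M) : ℕ)) ?_ ?_
    · intro i hi
      simp only [coe_filter, mem_univ, true_and, Set.mem_setOf_eq] at hi
      simp only [coe_filter, mem_range, Set.mem_setOf_eq]
      have h1 : ((σ.symm i : Fin M) : ℕ) < N := by
        by_contra hcon
        push Not at hcon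
        have h2 : (⟨N, hN⟩ : Fin M) ≤ σ.symm i := hcon
        have h3 := hmono h2
        simp only [Function.comp, Equiv.apply_symm_apply] at h3
        linarith [hi.1]
      refine ⟨h1, fun j => ?_⟩
      rw [hz' _ (σ.symm i).2 j]
      have : σ ⟨((σ.symm i : Fin M) : ℕ), (σ.symm i).2⟩ = i := by
        simp
      rw [this]
      exact hi.2 j
    · intro i _ i' _ hii
      have : σ.symm i = σ.symm i' := Fin.ext hii
      exact σ.symm.injective this
  have hup : ∀ (N : ℕ) (hN : N ≤ M) (t : ℝ) (_ : ∀ k (hk : k < M), k < N → ξ (σ ⟨k, hk⟩) 0 < t)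
      (y : Fin d → ℝ), ((range N).filter (fun k => ∀ j, z k j < y j)).card ≤ F t y := by
    intro N hN t ht y
    rcases Nat.eq_zero_or_pos M with hM | hM
    · have : N = 0 := by omega
      subst this
      simp
    rw [hF]
    refine card_le_card_of_injOn (fun k => if hk : k < M then σ ⟨k, hk⟩ else σ ⟨0, hM⟩) ?_ ?_
    · intro k hk
      simp only [coe_filter, mem_range, Set.mem_setOf_eq] at hk
      have hkM : k < M := lt_of_lt_of_le hk.1 hN
      simp only [coe_filter, mem_univ, true_and, Set.mem_setOf_eq, dif_pos hkM]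
      refine ⟨ht k hkM hk.1, fun j => ?_⟩
      have := hk.2 j
      rwa [hz' k hkM j] at this
    · intro k hk k' hk' hkk
      simp only [coe_filter, mem_range, Set.mem_setOf_eq] at hk hk'
      have hkM : k < M := lt_of_lt_of_le hk.1 hN
      have hkM' : k' < M := lt_of_lt_of_le hk'.1 hN
      simp only [dif_pos hkM, dif_pos hkM'] at hkk
      have := σ.injective hkk
      exact Fin.mk.inj_iff.1 this
  refine ⟨z, ?_, ?_⟩
  · intro k j
    by_cases hk : k < M
    · rw [hz' k hk j]; exact hξ _ _
    · rw [hz]; simp only [dif_neg hk]; exact ⟨le_rfl, zero_lt_one⟩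
  · intro N hN y hy0 hy1
    set A := ((range N).filter (fun k => ∀ j, z k j < y j)).card with hA
    set P := ∏ j, y j with hP
    have hP0 : 0 ≤ P := prod_nonneg fun j _ => hy0 j
    have hP1 : P ≤ 1 := prod_le_one (fun j _ => hy0 j) fun j _ => hy1 j
    rw [hcn, ← hA]
    rcases Nat.lt_or_ge N M with hNM | hNM
    · set t := ξ (σ ⟨N, hNM⟩) 0 with ht
      have ht0 : 0 ≤ t := (hξ _ _).1
      have ht1 : t < 1 := (hξ _ _).2
      -- every `t' > t` works for the upper bound
      have key : ∀ (y : Fin d → ℝ), (∀ j, 0 ≤ y j) → (∀ j, y j ≤ 1) →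
          |(((range N).filter (fun k => ∀ j, z k j < y j)).card : ℝ) - M * (t * ∏ j, y j)| ≤ Δ := by
        intro y hy0 hy1
        have hQ0 : 0 ≤ ∏ j, y j := prod_nonneg fun j _ => hy0 j
        have hQ1 : ∏ j, y j ≤ 1 := prod_le_one (fun j _ => hy0 j) fun j _ => hy1 j
        have h1 := hFb t y ht0 ht1.le hy0 hy1
        have h2 : (F t y : ℝ) ≤ (((range N).filter (fun k => ∀ j, z k j < y j)).card : ℝ) := by
          exact_mod_cast hlow N hNM y
        rw [abs_le] at h1 ⊢
        constructor
        · linarith [h1.1]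
        · apply le_of_forall_pos_le_add
          intro ε hε
          obtain ⟨δ, hδ0, hδ1, hδε⟩ : ∃ δ : ℝ, 0 < δ ∧ δ ≤ 1 - t ∧ M * δ ≤ ε := by
            refine ⟨min (1 - t) (ε / (M + 1)), lt_min (by linarith) (by positivity),
              min_le_left _ _, ?_⟩
            have hM0 : (0:ℝ) ≤ M := Nat.cast_nonneg M
            calc (M:ℝ) * min (1 - t) (ε / (M + 1)) ≤ M * (ε / (M + 1)) :=
                  mul_le_mul_of_nonneg_left (min_le_right _ _) hM0
              _ ≤ (M + 1) * (ε / (M + 1)) := by
                  apply mul_le_mul_of_nonneg_right (by linarith) (by positivity)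
              _ = ε := by field_simp
          have h3 := hup N hN (t + δ) (by
            intro k hk hkN
            have h4 : (⟨k, hk⟩ : Fin M) ≤ ⟨N, hNM⟩ := by
              rw [Fin.mk_le_mk]; omega
            have h5 := hmono h4
            simp only [Function.comp] at h5
            linarith) y
          have h3' : ((((range N).filter (fun k => ∀ j, z k j < y j)).card : ℕ) : ℝ) ≤
              F (t + δ) y := by exact_mod_cast h3
          have h6 := (abs_le.1 (hFb (t + δ) y (by linarith) (by linarith) hy0 hy1)).2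
          have h7 : (M:ℝ) * ((t + δ) * ∏ j, y j) ≤ M * (t * ∏ j, y j) + ε := by
            have : (M:ℝ) * δ * ∏ j, y j ≤ ε * 1 :=
              mul_le_mul hδε hQ1 hQ0 hε.le
            nlinarith
          linarith
      have k1 := key y hy0 hy1
      have k2 := key (fun _ => 1) (fun _ => zero_le_one) (fun _ => le_rfl)
      have h8 : (range N).filter (fun k => ∀ j, z k j < (fun _ : Fin d => (1:ℝ)) j) = range N := by
        apply filter_true_of_mem
        intro k hk j
        rw [mem_range] at hk
        rw [hz' k (by omega) j]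
        exact (hξ _ _).2
      rw [h8, card_range, prod_const_one, mul_one] at k2
      rw [← hA, ← hP] at k1
      have e : (A:ℝ) - N * P = ((A:ℝ) - M * (t * P)) - ((N:ℝ) - M * t) * P := by ring
      rw [e]
      calc |((A:ℝ) - M * (t * P)) - ((N:ℝ) - M * t) * P| ≤
            |(A:ℝ) - M * (t * P)| + |((N:ℝ) - M * t) * P| := abs_sub _ _
        _ ≤ Δ + Δ * 1 := by
            refine add_le_add k1 ?_
            rw [abs_mul, abs_of_nonneg hP0]
            exact mul_le_mul k2 hP1 hP0 hΔ
        _ = 2 * Δ := by ring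
    · obtain rfl : N = M := le_antisymm hN hNM
      have h1 := hup N le_rfl 1 (fun k hk _ => (hξ _ _).2) y
      have h2 : F 1 y ≤ A := by
        rw [hF, hA]
        refine card_le_card_of_injOn (fun i => ((σ.symm i : Fin N) : ℕ)) ?_ ?_
        · intro i hi
          simp only [coe_filter, mem_univ, true_and, Set.mem_setOf_eq] at hi
          simp only [coe_filter, mem_range, Set.mem_setOf_eq]
          refine ⟨(σ.symm i).2, fun j => ?_⟩
          rw [hz' _ (σ.symm i).2 j]
          have : σ ⟨((σ.symm i : Fin N) : ℕ), (σ.symm i).2⟩ = i := by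
            simp
          rw [this]
          exact hi.2 j
        · intro i _ i' _ hii
          have : σ.symm i = σ.symm i' := Fin.ext hii
          exact σ.symm.injective this
      have h3 : A = F 1 y := le_antisymm h1 h2
      have h4 := hFb 1 y zero_le_one le_rfl hy0 hy1
      rw [one_mul, ← hP, ← h3] at h4
      linarith

end H739SQ
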