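import Pool.Agent.H739R3.SQ.A

set_option autoImplicit false

/-!
# Concatenation of finite sequences
-/

namespace H739SQ

open Finset

lemma cn_add {d : ℕ} (z : ℕ → Fin d → ℝ) (n m : ℕ) (y : Fin d → ℝ) :
    cn z (n + m) y = cn z n y + cn (fun k => z (n + k)) m y := by
  unfold cn
  rw [sum_range_add]

lemma cn_congr {d : ℕ} {z z' : ℕ → Fin d → ℝ} {N : ℕ} (h : ∀ k < N, z k = z' k) (y : Fin d → ℝ) :
    cn z N y = cn z' N y := by
  unfold cn
  exact sum_congr rfl fun k hk => by rw [h k (mem_range.1 hk)]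

lemma cn_zero {d : ℕ} (z : ℕ → Fin d → ℝ) (y : Fin d → ℝ) : cn z 0 y = 0 := by
  unfold cn
  simp

/-- **Concatenation.** -/
theorem concat {d : ℕ} (L : ℕ → ℕ) (hL : ∀ k, 0 < L k) (E : ℕ → ℝ) (w : ℕ → ℕ → Fin d → ℝ)
    (hw : ∀ k n j, 0 ≤ w k n j ∧ w k n j < 1) (hwE : ∀ k, ∀ N ≤ L k, SB (w k) N (E k)) :
    ∃ z : ℕ → Fin d → ℝ, (∀ n j, 0 ≤ z n j ∧ z n j < 1) ∧
      ∀ k N, (∑ j ∈ range k, L j) ≤ N → N ≤ (∑ j ∈ range (k + 1), L j) →
        SB z N (∑ j ∈ range (k + 1), E j) := by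
  classical
  set S : ℕ → ℕ := fun k => ∑ j ∈ range k, L j with hS
  have hSs : ∀ k, S (k + 1) = S k + L k := fun k => sum_range_succ _ _
  have hSge : ∀ k, k ≤ S k := by
    intro k
    induction k with
    | zero => exact Nat.zero_le _
    | succ k ih => rw [hSs]; have := hL k; omega
  have hex : ∀ n, ∃ k, n < S (k + 1) := fun n => ⟨n, by
    have := hSge (n + 1); omega⟩
  have hSmono : Monotone S := monotone_nat_of_le_succ fun k => by rw [hSs]; omega
  set b : ℕ → ℕ := fun n => Nat.find (hex n) with hb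
  have hb1 : ∀ n, n < S (b n + 1) := fun n => Nat.find_spec (hex n)
  have hb2 : ∀ n, S (b n) ≤ n := by
    intro n
    rcases Nat.eq_zero_or_pos (b n) with h0 | h0
    · rw [h0]; simp [hS]
    · obtain ⟨m, hm⟩ : ∃ m, b n = m + 1 := ⟨b n - 1, by omega⟩
      have := Nat.find_min (hex n) (m := m) (by
        have : Nat.find (hex n) = b n := rfl
        omega)
      rw [hm]; omega
  have hbk : ∀ k i, i < L k → b (S k + i) = k := by
    intro k i hi
    have h1 := hb1 (S k + i)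
    have h2 := hb2 (S k + i)
    by_contra hne
    rcases Nat.lt_or_gt_of_ne hne with hlt | hgt
    · have := hSmono (show b (S k + i) + 1 ≤ k by omega)
      omega
    · have := hSmono (show k + 1 ≤ b (S k + i) by omega)
      rw [hSs] at this
      omega
  set z : ℕ → Fin d → ℝ := fun n => w (b n) (n - S (b n)) with hz
  have hzk : ∀ k i, i < L k → z (S k + i) = w k i := by
    intro k i hi
    rw [hz]
    simp only
    rw [hbk k i hi, Nat.add_sub_cancel_left]
  refine ⟨z, fun n j => hw _ _ _, ?_⟩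
  have main : ∀ k r, r ≤ L k → SB z (S k + r) (∑ j ∈ range (k + 1), E j) := by
    intro k
    induction k with
    | zero =>
      intro r hr y hy0 hy1
      have h0 : S 0 = 0 := by simp [hS]
      rw [h0, zero_add]
      have h1 := hwE 0 r hr y hy0 hy1
      have h2 : cn z r y = cn (w 0) r y := cn_congr (fun i hi => by
        have := hzk 0 i (by omega)
        rwa [h0, zero_add] at this) y
      rw [h2, zero_add, sum_range_one]
      exact h1
    | succ k ih =>
      intro r hr y hy0 hy1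
      have h1 := ih (L k) le_rfl y hy0 hy1
      rw [← hSs] at h1
      have h2 := hwE (k + 1) r hr y hy0 hy1
      rw [cn_add, sum_range_succ]
      have h3 : cn (fun i => z (S (k + 1) + i)) r y = cn (w (k + 1)) r y :=
        cn_congr (fun i hi => hzk (k + 1) i (by omega)) y
      rw [h3]
      push_cast
      have e : cn z (S (k + 1)) y + cn (w (k + 1)) r y - ((S (k + 1) : ℕ) + (r : ℝ)) * ∏ j, y j =
          (cn z (S (k + 1)) y - (S (k + 1) : ℕ) * ∏ j, y j) +
            (cn (w (k + 1)) r y - (r : ℝ) * ∏ j, y j) := by ring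
      rw [e]
      exact (abs_add_le _ _).trans (add_le_add h1 h2)
  intro k N h1 h2
  have h3 := main k (N - S k) (by
    change S k ≤ N at h1
    change N ≤ S (k + 1) at h2
    rw [hSs] at h2
    omega)
  have h4 : S k + (N - S k) = N := Nat.add_sub_cancel' h1
  rwa [h4] at h3

/-- **Growth.** From point sets in dimension `d + 1` of all sizes to a sequence in dimension `d`. -/
theorem seq_of_sets {d : ℕ} (G : ℝ → ℝ) (K C : ℝ) (hC : 0 ≤ C) (hK : 0 ≤ K)
    (G2 : ∀ t, 4 ≤ t → G t ≤ 1 / 2 * G (4 * t))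
    (G3 : ∀ t s, 4 ≤ t → 1 < s → t ≤ 4 * s → G t ≤ K * G s)
    (G4 : ∀ s, 1 < s → 1 ≤ G s)
    (hset : ∀ M : ℕ, 3 ≤ M → ∃ ξ : Fin M → Fin (d + 1) → ℝ, (∀ i j, 0 ≤ ξ i j ∧ ξ i j < 1) ∧
      ∀ x : Fin (d + 1) → ℝ, (∀ j, 0 ≤ x j) → (∀ j, x j ≤ 1) →
        |(((univ : Finset (Fin M)).filter (fun i => ∀ j, ξ i j < x j)).card : ℝ)
          - M * ∏ j, x j| ≤ C * G (Real.log M)) :
    ∃ C' : ℝ, 0 ≤ C' ∧ ∃ z : ℕ → Fin d → ℝ, (∀ n j, 0 ≤ z n j ∧ z n j < 1) ∧
      ∀ N : ℕ, 3 ≤ N → SB z N (C' * G (Real.log N)) := by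
  classical
  set L : ℕ → ℕ := fun k => 81 ^ 4 ^ k with hL
  have hL81 : ∀ k, 81 ≤ L k := fun k => by
    calc 81 = 81 ^ 1 := (pow_one _).symm
      _ ≤ 81 ^ 4 ^ k := Nat.pow_le_pow_right (by norm_num) (Nat.one_le_pow _ _ (by norm_num))
  set τ : ℕ → ℝ := fun k => Real.log (L k) with hτ
  have hτe : ∀ k, τ k = 4 ^ k * Real.log 81 := by
    intro k
    rw [hτ]
    simp only [hL]
    push_cast
    rw [Real.log_pow]
    push_cast
    ring
  have hlog81 : 4 ≤ Real.log 81 := by
    have h1 : Real.exp 1 < 2.7182818286 := Real.exp_one_lt_d9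
    rw [Real.le_log_iff_exp_le (by norm_num)]
    have h2 : Real.exp 4 = Real.exp 1 ^ 4 := by rw [← Real.exp_nat_mul]; norm_num
    rw [h2]
    calc Real.exp 1 ^ 4 ≤ 2.7182818286 ^ 4 := pow_le_pow_left₀ (Real.exp_pos 1).le h1.le 4
      _ ≤ 81 := by norm_num
  have hτ4 : ∀ k, 4 ≤ τ k := fun k => by
    rw [hτe]
    have : (1:ℝ) ≤ 4 ^ k := one_le_pow₀ (by norm_num)
    nlinarith
  have hτs : ∀ k, τ (k + 1) = 4 * τ k := fun k => by
    rw [hτe, hτe, pow_succ]; ring
  have hex : ∀ k, ∃ z : ℕ → Fin d → ℝ, (∀ k j, 0 ≤ z k j ∧ z k j < 1) ∧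
      ∀ N ≤ L k, SB z N (2 * (C * G (τ k))) := by
    intro k
    obtain ⟨ξ, hξ, h⟩ := hset (L k) (by have := hL81 k; omega)
    exact sorted ξ hξ h
  choose w hw hwE using hex
  obtain ⟨z, hz, hzE⟩ := concat L (fun k => by have := hL81 k; omega)
    (fun k => 2 * (C * G (τ k))) w hw hwE
  have hsum : ∀ k, ∑ j ∈ range (k + 1), 2 * (C * G (τ j)) ≤ 4 * C * G (τ k) := by
    intro k
    induction k with
    | zero =>
      have := G4 (τ 0) (by linarith [hτ4 0])
      rw [zero_add, sum_range_one]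
      nlinarith [mul_nonneg hC (by linarith : 0 ≤ G (τ 0))]
    | succ k ih =>
      rw [sum_range_succ]
      have h1 := G2 (τ k) (hτ4 k)
      rw [← hτs] at h1
      have h2 : C * G (τ k) ≤ C * (1 / 2 * G (τ (k + 1))) := mul_le_mul_of_nonneg_left h1 hC
      linarith
  have hG0 : 1 ≤ G (τ 0) := G4 _ (by linarith [hτ4 0])
  refine ⟨4 * C * (G (τ 0) + K), by
    have : 0 ≤ G (τ 0) + K := by linarith
    positivity, z, hz, ?_⟩
  intro N hN y hy0 hy1
  have hN0 : (0:ℝ) < N := by exact_mod_cast (by omega : 0 < N)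
  have hs1 : 1 < Real.log N := by
    rw [Real.lt_log_iff_exp_lt hN0]
    have h1 := Real.exp_one_lt_d9
    have h2 : (3:ℝ) ≤ N := by exact_mod_cast hN
    linarith
  have hGs := G4 _ hs1
  -- find the block
  set S : ℕ → ℕ := fun k => ∑ j ∈ range k, L j with hS
  have hSs : ∀ k, S (k + 1) = S k + L k := fun k => sum_range_succ _ _
  have hSge : ∀ k, k ≤ S k := by
    intro k
    induction k with
    | zero => exact Nat.zero_le _
    | succ k ih => rw [hSs]; have := hL81 k; omega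
  have hexk : ∃ k, N ≤ S (k + 1) := ⟨N, by have := hSge (N + 1); omega⟩
  obtain ⟨k, hk, hmin⟩ : ∃ k, N ≤ S (k + 1) ∧ ∀ m < k, ¬ N ≤ S (m + 1) :=
    ⟨Nat.find hexk, Nat.find_spec hexk, fun m hm => Nat.find_min hexk hm⟩
  rcases k with _ | k
  · have h1 := hzE 0 N (by simp) hk y hy0 hy1
    refine h1.trans ((hsum 0).trans ?_)
    have h2 : G (τ 0) * 1 ≤ (G (τ 0) + K) * G (Real.log N) :=
      mul_le_mul (by linarith) hGs zero_le_one (by linarith)
    calc 4 * C * G (τ 0) = 4 * C * (G (τ 0) * 1) := by ring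
      _ ≤ 4 * C * ((G (τ 0) + K) * G (Real.log N)) :=
          mul_le_mul_of_nonneg_left h2 (by positivity)
      _ = 4 * C * (G (τ 0) + K) * G (Real.log N) := by ring
  · have hlt : S (k + 1) < N := by
      have := hmin k (Nat.lt_succ_self k)
      omega
    have h1 := hzE (k + 1) N hlt.le hk y hy0 hy1
    refine h1.trans ((hsum (k + 1)).trans ?_)
    have h3 : L k ≤ N := by
      have := hSs k
      omega
    have h4 : τ k ≤ Real.log N := by
      rw [hτ]
      have : (0:ℝ) < L k := by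
        have := hL81 k
        exact_mod_cast (by omega : 0 < L k)
      exact Real.log_le_log this (by exact_mod_cast h3)
    have h5 := G3 (τ (k + 1)) (Real.log N) (hτ4 _) hs1 (by rw [hτs]; linarith)
    have h6 : K * G (Real.log N) ≤ (G (τ 0) + K) * G (Real.log N) :=
      mul_le_mul_of_nonneg_right (by linarith) (by linarith)
    calc 4 * C * G (τ (k + 1)) ≤ 4 * C * ((G (τ 0) + K) * G (Real.log N)) :=
          mul_le_mul_of_nonneg_left (h5.trans h6) (by positivity)
      _ = 4 * C * (G (τ 0) + K) * G (Real.log N) := by ring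

end H739SQ
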