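import Pool.Agent.H739R3.SQ.B

set_option autoImplicit false

/-!
# From anchored boxes to all boxes
-/

namespace H739SQ

open Finset MeasureTheory

open Classical in
/-- The number of `k < N` with `z k j ∈ U j` for all `j`, as a real number. -/
noncomputable def cU {d : ℕ} (z : ℕ → Fin d → ℝ) (N : ℕ) (U : Fin d → Set ℝ) : ℝ :=
  ∑ k ∈ range N, if ∀ j, z k j ∈ U j then (1 : ℝ) else 0

lemma cU_mono {d : ℕ} {z : ℕ → Fin d → ℝ} {N : ℕ} {U V : Fin d → Set ℝ}
    (h : ∀ k, (∀ j, z k j ∈ U j) → ∀ j, z k j ∈ V j) : cU z N U ≤ cU z N V := by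
  classical
  unfold cU
  apply sum_le_sum
  intro k _
  by_cases h1 : ∀ j, z k j ∈ U j
  · rw [if_pos h1, if_pos (h k h1)]
  · rw [if_neg h1]
    split_ifs <;> norm_num

lemma cU_Iio {d : ℕ} (z : ℕ → Fin d → ℝ) (N : ℕ) (y : Fin d → ℝ) :
    cU z N (fun j => Set.Iio (y j)) = cn z N y := by
  classical
  unfold cU cn
  exact sum_congr rfl fun k _ => by simp only [Set.mem_Iio]

theorem lower_sets {d : ℕ} {z : ℕ → Fin d → ℝ} {N : ℕ} {E : ℝ} (hz : ∀ n j, z n j < 1)
    (h : SB z N E) (U : Fin d → Set ℝ) (y : Fin d → ℝ) (hy0 : ∀ j, 0 ≤ y j) (hy1 : ∀ j, y j ≤ 1)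
    (hU1 : ∀ j x, x < y j → x ∈ U j) (hU2 : ∀ j x, x ∈ U j → x ≤ y j) :
    |cU z N U - N * ∏ j, y j| ≤ E := by
  have h1 : cn z N y ≤ cU z N U := by
    rw [← cU_Iio]
    exact cU_mono fun k hk j => hU1 j _ (hk j)
  have h2 : ∀ δ : ℝ, 0 < δ → cU z N U ≤ N * ∏ j, min (y j + δ) 1 + E := by
    intro δ hδ
    have h3 : cU z N U ≤ cn z N (fun j => min (y j + δ) 1) := by
      rw [← cU_Iio]
      refine cU_mono fun k hk j => ?_
      rw [Set.mem_Iio]
      exact lt_min (by have := hU2 j _ (hk j); linarith) (hz k j)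
    have h4 := h (fun j => min (y j + δ) 1)
      (fun j => le_min (by have := hy0 j; linarith) zero_le_one) (fun j => min_le_right _ _)
    have := (abs_le.1 h4).2
    linarith
  have h5 := (abs_le.1 (h y hy0 hy1)).1
  rw [abs_le]
  refine ⟨by linarith, ?_⟩
  have h6 : Filter.Tendsto (fun δ : ℝ => (N:ℝ) * ∏ j, min (y j + δ) 1 + E)
      (nhdsWithin 0 (Set.Ioi 0)) (nhds ((N:ℝ) * ∏ j, min (y j + 0) 1 + E)) := by
    apply Filter.Tendsto.mono_left _ nhdsWithin_le_nhds
    apply Continuous.tendsto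
    refine (continuous_const.mul (continuous_finsetProd _ fun j _ => ?_)).add continuous_const
    exact (continuous_const.add continuous_id).min continuous_const
  have h7 : cU z N U ≤ (N:ℝ) * ∏ j, min (y j + 0) 1 + E := by
    refine ge_of_tendsto h6 ?_
    filter_upwards [self_mem_nhdsWithin] with δ hδ
    exact h2 δ hδ
  have h8 : ∏ j, min (y j + 0) 1 = ∏ j, y j := prod_congr rfl fun j _ => by
    rw [add_zero, min_eq_left (hy1 j)]
  rw [h8] at h7
  linarith

lemma prod_sub_expand {d : ℕ} (b a : Fin d → ℝ) :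
    ∏ j, (b j - a j) =
      ∑ T : Finset (Fin d), (-1 : ℝ) ^ (univ \ T).card * ∏ j, (if j ∈ T then b j else a j) := by
  classical
  have h0 : ∏ j, (b j - a j) = ∏ j, (b j + - a j) := by simp only [sub_eq_add_neg]
  rw [h0, prod_add, powerset_univ]
  refine sum_congr rfl fun T _ => ?_
  have h1 : ∏ j, (if j ∈ T then b j else a j) = (∏ j ∈ T, b j) * ∏ j ∈ univ \ T, a j := by
    rw [← Finset.prod_sdiff (subset_univ T), mul_comm]
    congr 1
    · exact prod_congr rfl fun j hj => by rw [if_pos hj]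
    · exact prod_congr rfl fun j hj => by rw [if_neg (mem_sdiff.1 hj).2]
  rw [h1, Finset.prod_neg]
  ring

theorem all_boxes {d : ℕ} {z : ℕ → Fin d → ℝ} {N : ℕ} {E : ℝ} (hz : ∀ n j, z n j < 1)
    (h : SB z N E) (I : Fin d → Set ℝ) (hI : ∀ j, (I j).OrdConnected ∧ I j ⊆ Set.Ico 0 1) :
    |cU z N I - N * ∏ j, (volume (I j)).toReal| ≤ 2 ^ d * E := by
  classical
  have hE : 0 ≤ E := (abs_nonneg _).trans (h (fun _ => 0) (fun _ => le_rfl) (fun _ => zero_le_one))
  by_cases hne : ∀ j, (I j).Nonempty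
  swap
  · push Not at hne
    obtain ⟨j0, hj0⟩ := hne
    have h1 : cU z N I = 0 := by
      unfold cU
      apply sum_eq_zero
      intro k _
      rw [if_neg]
      intro hk
      have := hk j0
      rw [hj0] at this
      exact this
    have h2 : ∏ j, (volume (I j)).toReal = 0 := by
      apply prod_eq_zero (mem_univ j0)
      rw [hj0]; simp
    rw [h1, h2, mul_zero, sub_zero, abs_zero]
    positivity
  set b : Fin d → ℝ := fun j => sSup (I j) with hb
  set a : Fin d → ℝ := fun j => sInf (I j) with ha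
  set R : Fin d → Set ℝ := fun j => {x | ∃ i ∈ I j, x ≤ i} with hR
  set L : Fin d → Set ℝ := fun j => {x | ∀ i ∈ I j, x < i} with hL
  have hbdd : ∀ j, BddAbove (I j) := fun j => ⟨1, fun x hx => ((hI j).2 hx).2.le⟩
  have hbdd' : ∀ j, BddBelow (I j) := fun j => ⟨0, fun x hx => ((hI j).2 hx).1⟩
  have hb0 : ∀ j, 0 ≤ b j := fun j => by
    obtain ⟨x, hx⟩ := hne j
    exact ((hI j).2 hx).1.trans (le_csSup (hbdd j) hx)
  have hb1 : ∀ j, b j ≤ 1 := fun j => csSup_le (hne j) fun x hx => ((hI j).2 hx).2.le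
  have ha0 : ∀ j, 0 ≤ a j := fun j => le_csInf (hne j) fun x hx => ((hI j).2 hx).1
  have ha1 : ∀ j, a j ≤ 1 := fun j => by
    obtain ⟨x, hx⟩ := hne j
    exact (csInf_le (hbdd' j) hx).trans ((hI j).2 hx).2.le
  have hab : ∀ j, a j ≤ b j := fun j => by
    obtain ⟨x, hx⟩ := hne j
    exact (csInf_le (hbdd' j) hx).trans (le_csSup (hbdd j) hx)
  have hR1 : ∀ j x, x < b j → x ∈ R j := fun j x hx => by
    obtain ⟨i, hi, hxi⟩ := exists_lt_of_lt_csSup (hne j) hx
    exact ⟨i, hi, hxi.le⟩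
  have hR2 : ∀ j x, x ∈ R j → x ≤ b j := fun j x hx => by
    obtain ⟨i, hi, hxi⟩ := hx
    exact hxi.trans (le_csSup (hbdd j) hi)
  have hL1 : ∀ j x, x < a j → x ∈ L j := fun j x hx i hi => lt_of_lt_of_le hx (csInf_le (hbdd' j) hi)
  have hL2 : ∀ j x, x ∈ L j → x ≤ a j := fun j x hx => le_csInf (hne j) fun i hi => (hx i hi).le
  have hmem : ∀ j x, (x ∈ I j ↔ x ∈ R j ∧ x ∉ L j) := by
    intro j x
    constructor
    · intro hx
      exact ⟨⟨x, hx, le_rfl⟩, fun h => lt_irrefl _ (h x hx)⟩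
    · rintro ⟨⟨i, hi, hxi⟩, h2⟩
      simp only [hL] at h2
      have h3 : ¬ ∀ i ∈ I j, x < i := h2
      push Not at h3
      obtain ⟨i', hi', hx'⟩ := h3
      exact (hI j).1.out hi' hi ⟨hx', hxi⟩
  have hLR : ∀ j x, x ∈ L j → x ∈ R j := fun j x hx => by
    obtain ⟨i, hi⟩ := hne j
    exact ⟨i, hi, (hx i hi).le⟩
  have hind : ∀ j x, (if x ∈ I j then (1:ℝ) else 0) =
      (if x ∈ R j then (1:ℝ) else 0) - (if x ∈ L j then (1:ℝ) else 0) := by
    intro j x
    by_cases h1 : x ∈ L j
    · have h2 : x ∉ I j := fun h => ((hmem j x).1 h).2 h1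
      rw [if_neg h2, if_pos (hLR j x h1), if_pos h1]; norm_num
    · by_cases h2 : x ∈ R j
      · rw [if_pos ((hmem j x).2 ⟨h2, h1⟩), if_pos h2, if_neg h1]; norm_num
      · have h3 : x ∉ I j := fun h => h2 ((hmem j x).1 h).1
        rw [if_neg h3, if_neg h2, if_neg h1]; norm_num
  have hvol : ∀ j, (volume (I j)).toReal = b j - a j := by
    intro j
    have h1 : volume (I j) = ENNReal.ofReal (b j - a j) := by
      apply le_antisymm
      · rw [← Real.volume_Icc]
        exact measure_mono fun x hx => ⟨csInf_le (hbdd' j) hx, le_csSup (hbdd j) hx⟩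
      · rw [← Real.volume_Ioo]
        refine measure_mono fun x hx => ?_
        obtain ⟨i, hi, hxi⟩ := exists_lt_of_lt_csSup (hne j) hx.2
        obtain ⟨i', hi', hxi'⟩ := exists_lt_of_csInf_lt (hne j) hx.1
        exact (hI j).1.out hi' hi ⟨hxi'.le, hxi.le⟩
    rw [h1, ENNReal.toReal_ofReal (by linarith [hab j])]
  -- all indicator products
  have hprod : ∀ (U : Fin d → Set ℝ) (v : Fin d → ℝ),
      (if ∀ j, v j ∈ U j then (1:ℝ) else 0) = ∏ j, (if v j ∈ U j then (1:ℝ) else 0) := by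
    intro U v
    by_cases h1 : ∀ j, v j ∈ U j
    · rw [if_pos h1]
      symm
      exact prod_eq_one fun j _ => if_pos (h1 j)
    · rw [if_neg h1]
      push Not at h1
      obtain ⟨j, hj⟩ := h1
      symm
      exact prod_eq_zero (mem_univ j) (if_neg hj)
  set W : Finset (Fin d) → Fin d → Set ℝ := fun T j => if j ∈ T then R j else L j with hW
  have hcount : cU z N I = ∑ T : Finset (Fin d), (-1 : ℝ) ^ (univ \ T).card * cU z N (W T) := by
    have h1 : ∀ k, (if ∀ j, z k j ∈ I j then (1:ℝ) else 0) =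
        ∑ T : Finset (Fin d), (-1 : ℝ) ^ (univ \ T).card *
          (if ∀ j, z k j ∈ W T j then (1:ℝ) else 0) := by
      intro k
      rw [hprod]
      have h2 : ∏ j, (if z k j ∈ I j then (1:ℝ) else 0) =
          ∏ j, ((if z k j ∈ R j then (1:ℝ) else 0) - (if z k j ∈ L j then (1:ℝ) else 0)) :=
        prod_congr rfl fun j _ => hind j _
      rw [h2, prod_sub_expand]
      refine sum_congr rfl fun T _ => ?_
      rw [hprod]
      congr 1
      refine prod_congr rfl fun j _ => ?_
      simp only [hW]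
      split_ifs <;> rfl
    unfold cU
    rw [sum_congr rfl fun k _ => h1 k, sum_comm]
    refine sum_congr rfl fun T _ => ?_
    rw [mul_sum]
  have hvolp : ∏ j, (volume (I j)).toReal = ∑ T : Finset (Fin d), (-1 : ℝ) ^ (univ \ T).card *
      ∏ j, (if j ∈ T then b j else a j) := by
    rw [← prod_sub_expand]
    exact prod_congr rfl fun j _ => hvol j
  rw [hcount, hvolp, mul_sum, ← sum_sub_distrib]
  calc |∑ T : Finset (Fin d), ((-1 : ℝ) ^ (univ \ T).card * cU z N (W T) -
        N * ((-1 : ℝ) ^ (univ \ T).card * ∏ j, (if j ∈ T then b j else a j)))| ≤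
        ∑ T : Finset (Fin d), |(-1 : ℝ) ^ (univ \ T).card * cU z N (W T) -
        N * ((-1 : ℝ) ^ (univ \ T).card * ∏ j, (if j ∈ T then b j else a j))| :=
        abs_sum_le_sum_abs _ _
    _ ≤ ∑ _T : Finset (Fin d), E := by
        refine sum_le_sum fun T _ => ?_
        have e : (-1 : ℝ) ^ (univ \ T).card * cU z N (W T) -
            N * ((-1 : ℝ) ^ (univ \ T).card * ∏ j, (if j ∈ T then b j else a j)) =
            (-1 : ℝ) ^ (univ \ T).card *
              (cU z N (W T) - N * ∏ j, (if j ∈ T then b j else a j)) := by ring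
        rw [e, abs_mul, abs_pow, abs_neg, abs_one, one_pow, one_mul]
        refine lower_sets hz h (W T) _ ?_ ?_ ?_ ?_
        · intro j; split_ifs
          · exact hb0 j
          · exact ha0 j
        · intro j; split_ifs
          · exact hb1 j
          · exact ha1 j
        · intro j x hx
          simp only [hW]
          split_ifs at hx ⊢
          · exact hR1 j x hx
          · exact hL1 j x hx
        · intro j x hx
          simp only [hW] at hx
          split_ifs at hx ⊢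
          · exact hR2 j x hx
          · exact hL2 j x hx
    _ = 2 ^ d * E := by
        rw [sum_const, card_univ, Fintype.card_finset, Fintype.card_fin, nsmul_eq_mul]
        push_cast
        ring

end H739SQ
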